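import Mathlib
import Pool.Agent.U37.MQ.Stm

set_option autoImplicit false

/-!
Project MQ, package OV: the oval of a circle and its chords.
-/

namespace Pool.Agent.U941.MQ

open Finset Equiv Pool.Agent.U37.MQ Pool.Agent.N606.ST Pool.Agent.U671.PG

open scoped Classical

theorem mem_line {V V' : Type} [Fintype V] [Fintype V'] {n : ℕ} {B : Finset (Finset V)} {X : V}
    {B' : Finset (Finset V')} {pt : V → V'} {dir : Finset V → V'} {ln : Finset V → Finset V'}
    {inf : Finset V'} (hC : Clos n B X B' pt dir ln inf) {k : Finset V} (hXk : X ∉ k)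
    {h : Finset V} (hh : h ∈ B) (hXh : X ∈ h) (y : V) (hy : y ∈ k) : pt y ∈ ln h ↔ y ∈ h :=
  hC.mem_pt h hh hXh y (by rintro rfl; exact hXk hy)

theorem inter_image {V V' : Type} [Fintype V] [Fintype V'] {n : ℕ} {B : Finset (Finset V)} {X : V}
    {B' : Finset (Finset V')} {pt : V → V'} {dir : Finset V → V'} {ln : Finset V → Finset V'}
    {inf : Finset V'} (hC : Clos n B X B' pt dir ln inf) {k : Finset V} (hXk : X ∉ k)
    {h : Finset V} (hh : h ∈ B) (hXh : X ∈ h) : ln h ∩ k.image pt = (h ∩ k).image pt := by
  ext P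
  simp only [mem_inter, mem_image]
  constructor
  · rintro ⟨h1, y, hy, rfl⟩
    exact ⟨y, ⟨(mem_line hC hXk hh hXh y hy).1 h1, hy⟩, rfl⟩
  · rintro ⟨y, ⟨h1, h2⟩, rfl⟩
    exact ⟨(mem_line hC hXk hh hXh y h2).2 h1, y, h2, rfl⟩

theorem t_OV : S_OV := by
  intro V V' _ _ n B X B' pt dir ln inf hn hI hC k hk hXk
  have hne : ∀ y ∈ k, y ≠ X := by
    rintro y hy rfl
    exact hXk hy
  refine ⟨⟨?_, ?_⟩, ?_⟩
  · rw [card_image_of_injOn, hI.cb k hk]
    intro y hy z hz hyz
    exact hC.pt_inj y z (hne y (mem_coe.1 hy)) (hne z (mem_coe.1 hz)) hyz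
  · intro b hb
    rcases (hC.lines b).1 hb with rfl | ⟨g, hg, hXg, rfl⟩
    · have h0 : b ∩ k.image pt = ∅ := by
        rw [eq_empty_iff_forall_notMem]
        intro P hP
        rw [mem_inter, mem_image] at hP
        obtain ⟨h1, y, hy, rfl⟩ := hP
        exact hC.inf_pt y (hne y hy) h1
      rw [h0]
      simp
    · rw [inter_image hC hXk hg hXg]
      refine card_image_le.trans (hI.two g hg k hk ?_)
      rintro rfl
      exact hXk hXg
  · intro g hg hXg P hP hPk
    -- the line of a chord
    have chord : ∀ A ∈ k, ∀ C ∈ k, Chord B' (k.image pt) P (pt A) (pt C) →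
        ∃ h ∈ B, X ∈ h ∧ P ∈ ln h ∧ h ∩ k = {A, C} := by
      intro A hA C hCk hch
      obtain ⟨b', hb', hPb, hi⟩ := hch
      have hAb : pt A ∈ b' := by
        have : pt A ∈ b' ∩ k.image pt := by rw [hi]; simp
        exact (mem_inter.1 this).1
      rcases (hC.lines b').1 hb' with rfl | ⟨h, hh, hXh, rfl⟩
      · exact absurd hAb (hC.inf_pt A (hne A hA))
      · refine ⟨h, hh, hXh, hPb, ?_⟩
        ext y
        simp only [mem_inter, mem_insert, mem_singleton]
        constructor
        · rintro ⟨h1, h2⟩
          have h3 : pt y ∈ ln h ∩ k.image pt :=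
            mem_inter.2 ⟨(mem_line hC hXk hh hXh y h2).2 h1, mem_image.2 ⟨y, h2, rfl⟩⟩
          rw [hi, mem_insert, mem_singleton] at h3
          rcases h3 with h3 | h3
          · exact Or.inl (hC.pt_inj y A (hne y h2) (hne A hA) h3)
          · exact Or.inr (hC.pt_inj y C (hne y h2) (hne C hCk) h3)
        · have h4 : ∀ y ∈ k, pt y ∈ ({pt A, pt C} : Finset V') → y ∈ h ∧ y ∈ k := by
            intro y hy h5
            rw [← hi, mem_inter] at h5
            exact ⟨(mem_line hC hXk hh hXh y hy).1 h5.1, hy⟩
          rintro (rfl | rfl)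
          · exact h4 y hA (by simp)
          · exact h4 y hCk (by simp)
    rcases hC.surj P with ⟨p, hpX, rfl⟩ | ⟨g', hg', hXg', rfl⟩
    · -- an affine point
      have hpg : p ∈ g := (hC.mem_pt g hg hXg p hpX).1 hP
      have hpk : p ∉ k := fun h => hPk (mem_image.2 ⟨p, h, rfl⟩)
      refine ⟨p, hpg, hpk, fun A hA C hCk hch => ?_⟩
      obtain ⟨h, hh, hXh, hPh, hhk⟩ := chord A hA C hCk hch
      have hph : p ∈ h := (hC.mem_pt h hh hXh p hpX).1 hPh
      have hAh : A ∈ h := by
        have : A ∈ h ∩ k := by rw [hhk]; simp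
        exact (mem_inter.1 this).1
      have hCh : C ∈ h := by
        have : C ∈ h ∩ k := by rw [hhk]; simp
        exact (mem_inter.1 this).1
      constructor
      · intro hAg
        have hhg : h ≠ g := by
          rintro rfl
          exact hAg hAh
        have h1 : h ∩ g = {X, p} := by
          symm
          apply eq_of_subset_of_card_le
          · intro x hx
            rw [mem_insert, mem_singleton] at hx
            rcases hx with rfl | rfl
            · exact mem_inter.2 ⟨hXh, hXg⟩
            · exact mem_inter.2 ⟨hph, hpg⟩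
          · rw [card_pair hpX.symm]
            exact hI.two h hh g hg hhg
        refine ⟨fun hCg => ?_, h, hh, h1, hhk⟩
        have h2 : C ∈ h ∩ g := mem_inter.2 ⟨hCh, hCg⟩
        rw [h1, mem_insert, mem_singleton] at h2
        rcases h2 with rfl | rfl
        · exact hXk hCk
        · exact hpk hCk
      · intro hAg
        have h1 : g = h := hI.eq3 X p A hpX.symm (hne A hA).symm (by rintro rfl; exact hpk hA)
          g hg h hh hXg hpg hAg hXh hph hAh
        rw [h1]
        exact hhk
    · -- a direction
      refine ⟨X, hXg, hXk, fun A hA C hCk hch => ?_⟩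
      obtain ⟨h, hh, hXh, hPh, hhk⟩ := chord A hA C hCk hch
      have hd : dir g = dir h := by
        rw [← (hC.mem_dir g hg hXg g' hg' hXg').1 hP]
        exact (hC.mem_dir h hh hXh g' hg' hXg').1 hPh
      have hAh : A ∈ h := by
        have : A ∈ h ∩ k := by rw [hhk]; simp
        exact (mem_inter.1 this).1
      have hCh : C ∈ h := by
        have : C ∈ h ∩ k := by rw [hhk]; simp
        exact (mem_inter.1 this).1
      have hor := (hC.dir_eq g hg hXg h hh hXh).1 hd
      constructor
      · intro hAg
        have hgh : g ∩ h = {X} := by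
          rcases hor with rfl | h1
          · exact absurd hAh hAg
          · exact h1
        refine ⟨fun hCg => ?_, h, hh, ?_, hhk⟩
        · have h2 : C ∈ g ∩ h := mem_inter.2 ⟨hCg, hCh⟩
          rw [hgh, mem_singleton] at h2
          exact hne C hCk h2
        · rw [inter_comm, hgh]
          simp
      · intro hAg
        rcases hor with rfl | h1
        · exact hhk
        · exfalso
          have h2 : A ∈ g ∩ h := mem_inter.2 ⟨hAg, hAh⟩
          rw [h1, mem_singleton] at h2
          exact hne A hA h2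

end Pool.Agent.U941.MQ
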